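import Pool.Agent.ZES.StmtsF

/-!
# Squad ZES, row VTF (helper39)
-/

set_option autoImplicit false

namespace Pool.Agent.ZES.H39

open scoped BigOperators
open Pool.Agent.THS Pool.Agent.ZES

theorem siegel_smul {g : ℕ} {τ : Matrix (Fin g) (Fin g) ℂ} (h : Siegel τ) (n : ℕ) (hn : 1 ≤ n) :
    Siegel ((n : ℂ) • τ) := by
  refine ⟨?_, ?_⟩
  · rw [Matrix.transpose_smul, h.1]
  · have e : ((n : ℂ) • τ).map Complex.im = (n : ℝ) • τ.map Complex.im := by
      ext i j
      simp [Matrix.map_apply, Matrix.smul_apply]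
    rw [e]
    exact h.2.smul (by exact_mod_cast hn)

theorem summ_norm (hT : TbdStatement) {g : ℕ} {τ : Matrix (Fin g) (Fin g) ℂ} (hτ : Siegel τ)
    (s : Fin g → ℝ) (z : Fin g → ℂ) : Summable (fun n => ‖tht τ s z n‖) := by
  obtain ⟨u, hu, hb⟩ := hT g τ hτ (∑ i, |s i| + ∑ i, ‖z i‖)
  refine Summable.of_nonneg_of_le (fun n => norm_nonneg _) (fun n => ?_) hu
  refine hb s z (fun i => ?_) (fun i => ?_) n
  · have h1 := Finset.single_le_sum (f := fun i => |s i|) (fun i _ => abs_nonneg _)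
      (Finset.mem_univ i)
    have h2 : 0 ≤ ∑ i, ‖z i‖ := Finset.sum_nonneg (fun i _ => norm_nonneg _)
    linarith
  · have h1 := Finset.single_le_sum (f := fun i => ‖z i‖) (fun i _ => norm_nonneg _)
      (Finset.mem_univ i)
    have h2 : 0 ≤ ∑ i, |s i| := Finset.sum_nonneg (fun i _ => abs_nonneg _)
    linarith

theorem exp_two_pi_int (m : ℤ) : Complex.exp (2 * Real.pi * Complex.I * (m : ℂ)) = 1 := by
  rw [Complex.exp_eq_one_iff]
  exact ⟨m, by ring⟩

theorem vtf (tbd : TbdStatement) (tpe : TpeStatement) (tdf : SZG.TdfStmt) (fsr : FsrStmt) :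
    VtfStmt := by
  intro g τ hτ n hn j
  have hn0 : (n : ℂ) ≠ 0 := by
    exact_mod_cast (show n ≠ 0 by omega)
  have hnR : (n : ℝ) ≠ 0 := by
    exact_mod_cast (show n ≠ 0 by omega)
  have hnZ : (n : ℤ) ≠ 0 := by
    exact_mod_cast (show n ≠ 0 by omega)
  have hν := siegel_smul hτ n hn
  set ν : Matrix (Fin g) (Fin g) ℂ := (n : ℂ) • τ with hνdef
  have hνe : ∀ i l, ν i l = (n : ℂ) * τ i l := fun i l => rfl
  refine ⟨⟨?_, ?_⟩, ?_, ?_⟩
  · -- differentiable
    have h1 := tdf g ν hν (fun i => (j i : ℝ) / (n : ℝ))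
    have h2 : Differentiable ℂ (fun x : Fin g → ℂ => fun i : Fin g => (n : ℂ) * x i) := by
      fun_prop
    exact h1.comp h2
  · intro x p q
    unfold vt
    rw [← hνdef]
    obtain ⟨_, _, h3, _⟩ := tpe g ν hν.1 (fun i => (j i : ℝ) / (n : ℝ))
      (fun i => (n : ℂ) * x i + (((n : ℤ) * p i : ℤ) : ℂ)) q
    obtain ⟨_, h2, _, _⟩ := tpe g ν hν.1 (fun i => (j i : ℝ) / (n : ℝ))
      (fun i => (n : ℂ) * x i) (fun i => (n : ℤ) * p i)
    have e1 : (fun i => (n : ℂ) * (x + pr τ p q) i) =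
        fun i => ((n : ℂ) * x i + (((n : ℤ) * p i : ℤ) : ℂ)) + ∑ l, ν i l * (q l : ℂ) := by
      funext i
      rw [Pi.add_apply]
      unfold pr
      have e2 : ∑ l, ν i l * (q l : ℂ) = (n : ℂ) * ∑ l, τ i l * (q l : ℂ) := by
        rw [Finset.mul_sum]
        exact Finset.sum_congr rfl (fun l _ => by rw [hνe]; ring)
      rw [e2]
      push_cast
      ring
    rw [e1, h3, h2, ← mul_assoc]
    congr 1
    have e3 : 2 * Real.pi * Complex.I * ∑ i, (((j i : ℝ) / (n : ℝ) : ℝ) : ℂ) *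
        (((n : ℤ) * p i : ℤ) : ℂ) = 2 * Real.pi * Complex.I * ((∑ i, j i * p i : ℤ) : ℂ) := by
      congr 1
      push_cast
      refine Finset.sum_congr rfl (fun i _ => ?_)
      field_simp
    rw [e3, exp_two_pi_int, mul_one]
    have e4 : -(Real.pi * Complex.I * ∑ i, ∑ l, (q i : ℂ) * ν i l * (q l : ℂ)) -
        2 * Real.pi * Complex.I * ∑ i, (q i : ℂ) * ((n : ℂ) * x i + (((n : ℤ) * p i : ℤ) : ℂ)) =
        (-(Real.pi * Complex.I * (n : ℂ) * ∑ i, ∑ l, (q i : ℂ) * τ i l * (q l : ℂ)) -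
          2 * Real.pi * Complex.I * (n : ℂ) * ∑ i, (q i : ℂ) * x i) +
        2 * Real.pi * Complex.I * ((-∑ i, (n : ℤ) * (q i * p i) : ℤ) : ℂ) := by
      have e5 : ∑ i, ∑ l, (q i : ℂ) * ν i l * (q l : ℂ) =
          (n : ℂ) * ∑ i, ∑ l, (q i : ℂ) * τ i l * (q l : ℂ) := by
        rw [Finset.mul_sum]
        refine Finset.sum_congr rfl (fun i _ => ?_)
        rw [Finset.mul_sum]
        exact Finset.sum_congr rfl (fun l _ => by rw [hνe]; ring)
      have e6 : ∑ i, (q i : ℂ) * ((n : ℂ) * x i + (((n : ℤ) * p i : ℤ) : ℂ)) =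
          (n : ℂ) * ∑ i, (q i : ℂ) * x i + ((∑ i, (n : ℤ) * (q i * p i) : ℤ) : ℂ) := by
        push_cast
        rw [Finset.mul_sum, ← Finset.sum_add_distrib]
        exact Finset.sum_congr rfl (fun i _ => by ring)
      rw [e5, e6]
      push_cast
      ring
    rw [e4, Complex.exp_add, exp_two_pi_int, mul_one]
  · intro p
    funext x
    unfold vt
    rw [← hνdef]
    have h1 := (tpe g ν hν.1 (fun i => (j i : ℝ) / (n : ℝ)) (fun i => (n : ℂ) * x i) p).1
    rw [← h1]
    congr 1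
    funext i
    push_cast
    field_simp
  · -- Fourier coefficients
    let c : (Fin g → ℤ) → ℂ := fun k =>
      open Classical in
      if ∀ i, (n : ℤ) ∣ k i - j i then
        Complex.exp (Real.pi * Complex.I * (∑ i, ∑ l, (k i : ℂ) * τ i l * (k l : ℂ)) / (n : ℂ))
      else 0
    have hc1 : ∀ k : Fin g → ℤ, (∀ i, (n : ℤ) ∣ k i - j i) → c k =
        Complex.exp (Real.pi * Complex.I * (∑ i, ∑ l, (k i : ℂ) * τ i l * (k l : ℂ)) / (n : ℂ)) :=
      fun k hk => if_pos hk
    have hc0 : ∀ k : Fin g → ℤ, ¬ (∀ i, (n : ℤ) ∣ k i - j i) → c k = 0 := fun k hk => if_neg hk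
    let φ : (Fin g → ℤ) → (Fin g → ℤ) := fun m i => (n : ℤ) * m i + j i
    have hφ : Function.Injective φ := by
      intro m m' h
      funext i
      have h1 := congrFun h i
      simp only [φ] at h1
      have h2 : (n : ℤ) * m i = (n : ℤ) * m' i := by linarith
      exact mul_left_cancel₀ hnZ h2
    have hφd : ∀ m i, (n : ℤ) ∣ φ m i - j i := by
      intro m i
      simp only [φ]
      exact ⟨m i, by ring⟩
    have hrange : ∀ k, k ∉ Set.range φ → c k = 0 := by
      intro k hk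
      apply hc0
      intro h
      apply hk
      choose m hm using h
      refine ⟨m, ?_⟩
      funext i
      simp only [φ]
      rw [← hm i]
      ring
    have key : ∀ (x : Fin g → ℂ) (m : Fin g → ℤ),
        tht ν (fun i => (j i : ℝ) / (n : ℝ)) (fun i => (n : ℂ) * x i) m =
          c (φ m) * Complex.exp (2 * Real.pi * Complex.I * ∑ i, (φ m i : ℂ) * x i) := by
      intro x m
      rw [hc1 _ (hφd m), ← Complex.exp_add]
      unfold tht
      congr 1
      have h1 : ∀ i, ((m i : ℂ) + (((j i : ℝ) / (n : ℝ) : ℝ) : ℂ)) = (φ m i : ℂ) / (n : ℂ) := by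
        intro i
        simp only [φ]
        push_cast
        field_simp
      have h2 : ∑ i, ∑ l, ((m i : ℂ) + (((j i : ℝ) / (n : ℝ) : ℝ) : ℂ)) * ν i l *
          ((m l : ℂ) + (((j l : ℝ) / (n : ℝ) : ℝ) : ℂ)) =
          (∑ i, ∑ l, (φ m i : ℂ) * τ i l * (φ m l : ℂ)) / (n : ℂ) := by
        rw [Finset.sum_div]
        refine Finset.sum_congr rfl (fun i _ => ?_)
        rw [Finset.sum_div]
        refine Finset.sum_congr rfl (fun l _ => ?_)
        rw [h1 i, h1 l, hνe]
        field_simp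
      have h3 : ∑ i, ((m i : ℂ) + (((j i : ℝ) / (n : ℝ) : ℝ) : ℂ)) * ((n : ℂ) * x i) =
          ∑ i, (φ m i : ℂ) * x i := by
        refine Finset.sum_congr rfl (fun i _ => ?_)
        rw [h1 i]
        field_simp
      rw [h2, h3, mul_div_assoc]
    have hsum : Summable (fun k => ‖c k‖) := by
      have h1 : Summable ((fun k => ‖c k‖) ∘ φ) := by
        have h2 := summ_norm tbd hν (fun i => (j i : ℝ) / (n : ℝ)) (fun i => (n : ℂ) * (0 : ℂ))
        refine h2.congr (fun m => ?_)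
        have h3 := key (fun _ => 0) m
        rw [h3]
        simp
      refine (hφ.summable_iff ?_).1 h1
      intro k hk
      rw [hrange k hk, norm_zero]
    have hF : ∀ t : Fin g → ℝ, vt τ n j (fun i => ((t i : ℝ) : ℂ)) = ∑' k : Fin g → ℤ,
        c k * Complex.exp (2 * Real.pi * Complex.I * ∑ i, (k i : ℂ) * ((t i : ℝ) : ℂ)) := by
      intro t
      unfold vt ths
      rw [← hνdef]
      let G : (Fin g → ℤ) → ℂ := fun k => c k * Complex.exp (2 * Real.pi * Complex.I *
        ∑ i, (k i : ℂ) * ((t i : ℝ) : ℂ))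
      have h1 : ∑' m : Fin g → ℤ, tht ν (fun i => (j i : ℝ) / (n : ℝ))
          (fun i => (n : ℂ) * ((t i : ℝ) : ℂ)) m = ∑' m : Fin g → ℤ, G (φ m) :=
        tsum_congr (fun m => key (fun i => ((t i : ℝ) : ℂ)) m)
      have h3 : Function.support G ⊆ Set.range φ := by
        intro k hk
        by_contra h2
        apply hk
        simp only [G, hrange k h2, zero_mul]
      have h4 : ∑' m : Fin g → ℤ, G (φ m) = ∑' k : Fin g → ℤ, G k :=
        Function.Injective.tsum_eq hφ h3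
      rw [h1, h4]
    intro k
    have h1 := fsr g c hsum (vt τ n j) hF k
    rw [h1]
    refine ⟨fun h => hc1 k h, fun h => hc0 k ?_⟩
    obtain ⟨i, hi⟩ := h
    exact fun h2 => hi (h2 i)

end Pool.Agent.ZES.H39
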